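import Mathlib
import Pool.Agent.X285.FS.Fin

/-!
# Split embedding problems for fake subfields

Q1 asks for a number field `K` which is a fake subfield of some number field, such that for every
number field `F` having `K` as a fake subfield the extension `1 → N_F → Γ_F → G → 1` is not split.
There is none: every fake subfield `K` of some number field is a fake subfield of a number field `F`
for which the extension splits, even as a direct product.

Let `G` be the Galois group of `K` and `V` the group of `K`.  By Chebotarev's theorem `K` is a fake
subfield of some number field only if `G` has a subgroup `U`, not contained in a conjugate of `V`,
all of whose elements have conjugates in `V`.  For large `n` embed `G` in `S_n`, take number fields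
with group `S_n`, disjoint from each other and from the Galois closure of `K`, and let `F` be the
field of the subgroup `{(u, u, 1) : u ∈ U}` of `G × S_n × S_n`.  Fixed points are so rare that for
every Frobenius element `σ` almost all of its cycles have the length `L` of the order of `σ`; the
numbers of cycles of other lengths are such that they may be distributed among the primes of `K`.

The definitions are in `Pool.Agent.X285.FS.Defs`.
-/

set_option autoImplicit false

open Pool.Agent.X285.FS

namespace Pool.Agent.Results.MP_d64882_nt.AlwaysSplits

/-- Every number field which is a fake subfield of some number field is a fake subfield of a number
field `F` for which the extension `1 → N_F → Γ_F → G → 1` splits. -/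
theorem result (K : IntermediateField ℚ QB) [NumberField K] (h : IsFakeOfSome K) :
    HasSplitRealization K :=
  final K h

end Pool.Agent.Results.MP_d64882_nt.AlwaysSplits
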